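import Mathlib
import Pool.Agent.H523R3.TransMain

set_option autoImplicit false

/-!
# MP_ff81d5_co, Q1: the maximal transversal ratios tend to one with the dimension

The definitions of `tauP` and `tauS` (limit superior over the number `n` of vertices of the largest
transversal ratio of the boundary complex of a simplicial `d`-polytope, respectively of a simplicial
`(d-1)`-sphere, with `n` vertices) are in `Pool.Agent.H523R3.TransDefs`.
-/

namespace Pool.Agent.Results.MP_ff81d5_co.LimitOne

open Pool.Agent.H523R3.Trans Filter Topology

/-- `lim τ^P_d = lim τ^S_d = 1` as `d → ∞`. In fact both sequences are equal to `1` from `d = 4`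
on. -/
theorem result : Tendsto tauP atTop (𝓝 1) ∧ Tendsto tauS atTop (𝓝 1) ∧
    ∀ d : ℕ, 4 ≤ d → tauP d = 1 ∧ tauS d = 1 := by
  refine ⟨?_, ?_, fun d hd => ⟨tauP_eq_one hd, tauS_eq_one hd⟩⟩
  · refine tendsto_const_nhds.congr' ?_
    filter_upwards [eventually_ge_atTop 4] with d hd
    exact (tauP_eq_one hd).symm
  · refine tendsto_const_nhds.congr' ?_
    filter_upwards [eventually_ge_atTop 4] with d hd
    exact (tauS_eq_one hd).symm

end Pool.Agent.Results.MP_ff81d5_co.LimitOne
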