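import Mathlib
import Pool.Agent.H523R3.TransMain
import Pool.Agent.Q8.TR.Circle
import Pool.Agent.Q8.TR.Three

set_option autoImplicit false

/-!
# MP_ff81d5_co, Q2: the maximal transversal ratios are weakly increasing in the dimension

The definitions of `tauP` and `tauS` (limit superior over the number `n` of vertices of the largest
transversal ratio of the boundary complex of a simplicial `d`-polytope, respectively of a simplicial
`(d-1)`-sphere, with `n` vertices) are in `Pool.Agent.H523R3.TransDefs`.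
-/

namespace Pool.Agent.Results.MP_ff81d5_co.WeaklyIncreasing

open Pool.Agent.H523R3.Trans Filter Topology

lemma bdd (A : ℕ → Set ℝ) (hle : ∀ n, ∀ t ∈ A n, t ≤ 1) :
    IsBoundedUnder (· ≤ ·) atTop (fun n => sSup (A n)) :=
  isBoundedUnder_of ⟨1, fun n => Real.sSup_le (hle n) zero_le_one⟩

lemma cobdd (A : ℕ → Set ℝ) (h0 : ∀ n, ∀ t ∈ A n, 0 ≤ t) :
    IsCoboundedUnder (· ≤ ·) atTop (fun n => sSup (A n)) :=
  IsCoboundedUnder.of_frequently_ge (a := 0)
    (Eventually.of_forall fun n => Real.sSup_nonneg (h0 n)).frequently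

lemma le_one (A : ℕ → Set ℝ) (h0 : ∀ n, ∀ t ∈ A n, 0 ≤ t) (hle : ∀ n, ∀ t ∈ A n, t ≤ 1) :
    limsup (fun n => sSup (A n)) atTop ≤ 1 :=
  limsup_le_of_le (cobdd A h0) (Eventually.of_forall fun n => Real.sSup_le (hle n) zero_le_one)

lemma le_half (A : ℕ → Set ℝ) (h0 : ∀ n, ∀ t ∈ A n, 0 ≤ t)
    (hle : ∀ n : ℕ, ∀ t ∈ A n, t ≤ 1 / 2 + 1 / (2 * (n : ℝ))) :
    limsup (fun n => sSup (A n)) atTop ≤ 1 / 2 := by
  have hlim : Tendsto (fun n : ℕ => 1 / 2 + 1 / (2 * (n : ℝ))) atTop (𝓝 (1 / 2)) := by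
    have h1 : Tendsto (fun n : ℕ => 1 / 2 + 1 / 2 * (1 / (n : ℝ))) atTop (𝓝 (1 / 2 + 1 / 2 * 0)) :=
      (tendsto_one_div_atTop_nhds_zero_nat.const_mul _).const_add _
    rw [mul_zero, add_zero] at h1
    refine h1.congr fun n => ?_
    rw [one_div_mul_one_div]
  refine le_of_forall_gt fun c hc => ?_
  have h1 : ∀ᶠ n : ℕ in atTop, sSup (A n) ≤ (c + 1 / 2) / 2 := by
    have h2 := hlim.eventually_lt_const (show (1 : ℝ) / 2 < (c + 1 / 2) / 2 by linarith)
    filter_upwards [h2] with n hn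
    exact Real.sSup_le (fun t ht => (hle n t ht).trans hn.le) (by linarith)
  have h2 := limsup_le_of_le (cobdd A h0) h1
  linarith

lemma half_le (A : ℕ → Set ℝ) (hle : ∀ n, ∀ t ∈ A n, t ≤ 1)
    (hge : ∀ m : ℕ, 0 < m → ∃ t ∈ A (4 * m), 1 / 2 - 1 / (2 * (m : ℝ)) ≤ t) :
    1 / 2 ≤ limsup (fun n => sSup (A n)) atTop := by
  refine le_of_forall_pos_le_add fun ε hε => ?_
  have h1 : ∃ᶠ n in atTop, 1 / 2 - ε ≤ sSup (A n) := by
    rw [frequently_atTop]
    intro N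
    obtain ⟨q, hq⟩ := exists_nat_gt (1 / ε)
    have hqpos : (0 : ℝ) < q := lt_trans (by positivity) hq
    obtain ⟨t, ht, h2⟩ := hge (N + q) (by
      have : 0 < q := by exact_mod_cast hqpos
      omega)
    refine ⟨4 * (N + q), by omega, le_trans ?_ (le_csSup ⟨1, fun x hx => hle _ x hx⟩ ht)⟩
    refine le_trans ?_ h2
    have h3 : 1 / (2 * ((N + q : ℕ) : ℝ)) ≤ ε := by
      push_cast
      have hN : (0 : ℝ) ≤ N := Nat.cast_nonneg _
      rw [div_le_iff₀ (by positivity)]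
      rw [div_lt_iff₀ hε] at hq
      nlinarith
    linarith
  have h2 := le_limsup_of_frequently_le h1 (bdd A hle)
  linarith

lemma p_le (d : ℕ) (hd : 0 < d) (n : ℕ) (t : ℝ) (ht : t ∈ {t : ℝ | ∃ p : Fin n → E d,
    IsSimplicialPolytope d p ∧ t = transversalRatio (boundary p)}) : 0 ≤ t ∧ t ≤ 1 := by
  obtain ⟨p, hp, rfl⟩ := ht
  exact ⟨transversalRatio_nonneg _, transversalRatio_le_one (isComplex_boundary hd hp)⟩

lemma s_le (d : ℕ) (n : ℕ) (t : ℝ) (ht : t ∈ {t : ℝ | ∃ Δ : Set (Finset (Fin n)),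
    IsSimplicialSphere d Δ ∧ t = transversalRatio Δ}) : 0 ≤ t ∧ t ≤ 1 := by
  obtain ⟨Δ, hΔ, rfl⟩ := ht
  exact ⟨transversalRatio_nonneg _, transversalRatio_le_one hΔ.1⟩

lemma tauP_le (d : ℕ) (hd : 0 < d) : tauP d ≤ 1 :=
  le_one _ (fun n t ht => (p_le d hd n t ht).1) (fun n t ht => (p_le d hd n t ht).2)

lemma tauS_le (d : ℕ) : tauS d ≤ 1 :=
  le_one _ (fun n t ht => (s_le d n t ht).1) (fun n t ht => (s_le d n t ht).2)

lemma tauP_two : tauP 2 ≤ 1 / 2 := by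
  refine le_half _ (fun n t ht => (p_le 2 (by norm_num) n t ht).1) ?_
  rintro n t ⟨p, hp, rfl⟩
  exact Pool.Agent.Q8.TR.ratio_le (isSimplicialSphere_boundary (by norm_num) hp)

lemma tauS_two : tauS 2 ≤ 1 / 2 := by
  refine le_half _ (fun n t ht => (s_le 2 n t ht).1) ?_
  rintro n t ⟨Δ, hΔ, rfl⟩
  exact Pool.Agent.Q8.TR.ratio_le hΔ

lemma tauP_three : 1 / 2 ≤ tauP 3 := by
  refine half_le _ (fun n t ht => (p_le 3 (by norm_num) n t ht).2) fun m hm => ?_
  obtain ⟨p, hp, h⟩ := Pool.Agent.Q8.TR.exists_three m hm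
  exact ⟨_, ⟨p, hp, rfl⟩, h⟩

lemma tauS_three : 1 / 2 ≤ tauS 3 := by
  refine half_le _ (fun n t ht => (s_le 3 n t ht).2) fun m hm => ?_
  obtain ⟨p, hp, h⟩ := Pool.Agent.Q8.TR.exists_three m hm
  exact ⟨_, ⟨boundary p, isSimplicialSphere_boundary (by norm_num) hp, rfl⟩, h⟩

/-- The sequences `τ^P_2, τ^P_3, …` and `τ^S_2, τ^S_3, …` are weakly increasing. -/
theorem result : ∀ d e : ℕ, 2 ≤ d → d ≤ e → tauP d ≤ tauP e ∧ tauS d ≤ tauS e := by
  intro d e hd hde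
  rcases Nat.lt_or_ge e 4 with he | he
  · obtain rfl | h := eq_or_lt_of_le hde
    · exact ⟨le_rfl, le_rfl⟩
    · obtain rfl : d = 2 := by omega
      obtain rfl : e = 3 := by omega
      exact ⟨tauP_two.trans tauP_three, tauS_two.trans tauS_three⟩
  · rw [tauP_eq_one he, tauS_eq_one he]
    exact ⟨tauP_le d (by omega), tauS_le d⟩

end Pool.Agent.Results.MP_ff81d5_co.WeaklyIncreasing
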